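import Pool.Agent.H13.TFQ.H71.FQ.Loc
import Pool.Agent.H13.TFQ.M39
import Pool.Agent.H13.TFQ.M64

/-!
# Project FU, degree one: directed unions of groups and of coefficient rings
-/

set_option autoImplicit false

open Matrix

universe u u' v w

namespace Pool.Agent.H71.FU0

open Pool.Agent.H71.FQ
open Pool.Agent.H71.FU1
open Pool.Agent.H71.FJ (K0 K0.map)
open Pool.Agent.H95.WH (K1 K1.mk K1.map K1.map_map FamSub conjHom FinSub)

section

variable {R : Type u} [Ring R] {G : Type v} [Group G]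

variable {H : Type*} [Group H] [Finite H]

/-- The class of a homomorphism. -/
noncomputable def gsym0 (f : H →* G) (x : K1 (MonoidAlgebra R H)) : H0K1 R G :=
  cl (rangeF f) (K1.map (MonoidAlgebra.mapDomainRingHom R f.rangeRestrict) x)

theorem gsym0_comp {H' : Type*} [Group H'] [Finite H'] (f : H →* G) (ψ : H' →* H)
    (x : K1 (MonoidAlgebra R H')) :
    gsym0 f (K1.map (MonoidAlgebra.mapDomainRingHom R ψ) x) = gsym0 (f.comp ψ) x := by
  have hr : ∀ x ∈ (rangeF (f.comp ψ)).1, (1 : G) * x * (1 : G)⁻¹ ∈ (rangeF f).1 := by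
    rintro _ ⟨a, rfl⟩
    rw [one_mul, inv_one, mul_one]
    exact ⟨ψ a, rfl⟩
  have e1 : (MonoidAlgebra.mapDomainRingHom R f.rangeRestrict).comp
      (MonoidAlgebra.mapDomainRingHom R ψ) =
      (MonoidAlgebra.mapDomainRingHom R (conjHom 1 (rangeF (f.comp ψ)).1 (rangeF f).1 hr)).comp
        (MonoidAlgebra.mapDomainRingHom R (f.comp ψ).rangeRestrict) := by
    rw [← MonoidAlgebra.mapDomainRingHom_comp, ← MonoidAlgebra.mapDomainRingHom_comp]
    congr 1
    refine MonoidHom.ext fun a => Subtype.ext ?_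
    change f (ψ a) = 1 * f (ψ a) * 1⁻¹
    rw [one_mul, inv_one, mul_one]
  rw [gsym0, gsym0, K1.map_map, e1, ← K1.map_map, cl_conj]

theorem gsym0_conj (f f' : H →* G) (g : G) (hf : ∀ a, f' a = g * f a * g⁻¹)
    (x : K1 (MonoidAlgebra R H)) : gsym0 f' x = gsym0 f x := by
  have hr : ∀ x ∈ (rangeF f).1, g * x * g⁻¹ ∈ (rangeF f').1 := by
    rintro _ ⟨a, rfl⟩
    exact ⟨a, hf a⟩
  have e1 : (MonoidAlgebra.mapDomainRingHom R f'.rangeRestrict) =
      (MonoidAlgebra.mapDomainRingHom R (conjHom g (rangeF f).1 (rangeF f').1 hr)).comp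
        (MonoidAlgebra.mapDomainRingHom R f.rangeRestrict) := by
    rw [← MonoidAlgebra.mapDomainRingHom_comp]
    congr 1
    exact MonoidHom.ext fun a => Subtype.ext (hf a)
  rw [gsym0, gsym0, e1, ← K1.map_map, cl_conj]

/-- the class of a symbol is the class of the inclusion -/
theorem cl_eq_gsym0 (F : FamSub G FinSub) (x : K1 (MonoidAlgebra R F.1)) (hF : Finite F.1) :
    cl F x = gsym0 F.1.subtype x := by
  have hr : ∀ x ∈ F.1, (1 : G) * x * (1 : G)⁻¹ ∈ (rangeF F.1.subtype).1 := by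
    intro a ha
    rw [one_mul, inv_one, mul_one]
    exact ⟨⟨a, ha⟩, rfl⟩
  have e1 : (MonoidAlgebra.mapDomainRingHom R F.1.subtype.rangeRestrict) =
      MonoidAlgebra.mapDomainRingHom R (conjHom 1 F.1 (rangeF F.1.subtype).1 hr) := by
    congr 1
    refine MonoidHom.ext fun a => Subtype.ext ?_
    change (a : G) = 1 * a * 1⁻¹
    rw [one_mul, inv_one, mul_one]
  rw [gsym0, e1, cl_conj]

end

section

variable (R : Type u) [Ring R] {G : Type v} [Group G] {G' : Type w} [Group G']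

/-- the image of a symbol -/
noncomputable def clF (φ : G →* G') (F : FamSub G FinSub) :
    K1 (MonoidAlgebra R F.1) →+ H0K1 R G' :=
  haveI : Finite F.1 := F.2
  (cl (rangeF (φ.comp F.1.subtype))).comp
    (K1.map (MonoidAlgebra.mapDomainRingHom R (φ.comp F.1.subtype).rangeRestrict))

theorem clF_conj (φ : G →* G') (F F' : FamSub G FinSub) (g : G)
    (h : ∀ x ∈ F.1, g * x * g⁻¹ ∈ F'.1) (x : K1 (MonoidAlgebra R F.1)) :
    clF R φ F' (K1.map (MonoidAlgebra.mapDomainRingHom R (conjHom g F.1 F'.1 h)) x) =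
      clF R φ F x := by
  haveI : Finite F.1 := F.2
  haveI : Finite F'.1 := F'.2
  change gsym0 (φ.comp F'.1.subtype)
      (K1.map (MonoidAlgebra.mapDomainRingHom R (conjHom g F.1 F'.1 h)) x) =
    gsym0 (φ.comp F.1.subtype) x
  rw [gsym0_comp (φ.comp F'.1.subtype) (conjHom g F.1 F'.1 h)]
  apply gsym0_conj _ _ (φ g)
  intro a
  change φ (g * a * g⁻¹) = φ g * φ a * (φ g)⁻¹
  rw [map_mul, map_mul, map_inv]

/-- Functoriality of the colimit. -/
noncomputable def map0 (φ : G →* G') : H0K1 R G →+ H0K1 R G' := lift10 (clF R φ) (clF_conj R φ)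

theorem map0_cl (φ : G →* G') (F : FamSub G FinSub) (x : K1 (MonoidAlgebra R F.1))
    (hF : Finite F.1) : map0 R φ (cl F x) = gsym0 (φ.comp F.1.subtype) x := lift10_cl _ _ F x

theorem map0_gsym0 (φ : G →* G') {H : Type*} [Group H] [Finite H] (f : H →* G)
    (x : K1 (MonoidAlgebra R H)) : map0 R φ (gsym0 f x) = gsym0 (φ.comp f) x := by
  haveI hfin : Finite (rangeF f).1 := (rangeF f).2
  rw [gsym0, map0_cl R φ (rangeF f) _ hfin,
    gsym0_comp (φ.comp (rangeF f).1.subtype) f.rangeRestrict]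
  rfl

theorem map0_map0 {G'' : Type*} [Group G''] (φ : G →* G') (ψ : G' →* G'') (z : H0K1 R G) :
    map0 R ψ (map0 R φ z) = map0 R (ψ.comp φ) z := by
  suffices H : (map0 R ψ).comp (map0 R φ) = map0 R (ψ.comp φ) from DFunLike.congr_fun H z
  refine h0k1_ext fun F x => ?_
  haveI : Finite F.1 := F.2
  rw [AddMonoidHom.comp_apply, map0_cl R φ F x this, map0_cl R (ψ.comp φ) F x this]
  exact map0_gsym0 R ψ _ x

theorem assembly10_gsym0 {H : Type*} [Group H] [Finite H] (f : H →* G)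
    (x : K1 (MonoidAlgebra R H)) :
    assembly10 R G (gsym0 f x) = kq1 (K1.map (MonoidAlgebra.mapDomainRingHom R f) x) := by
  rw [gsym0, assembly10_cl, K1.map_map, ← MonoidAlgebra.mapDomainRingHom_comp]
  rfl

/-- **The assembly map is natural in the group.** -/
theorem assembly10_map (φ : G →* G') (z : H0K1 R G) :
    assembly10 R G' (map0 R φ z) =
      KQ.map (MonoidAlgebra.mapDomainRingHom R φ) (assembly10 R G z) := by
  suffices H : (assembly10 R G').comp (map0 R φ) =
      (KQ.map (MonoidAlgebra.mapDomainRingHom R φ)).comp (assembly10 R G) from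
    DFunLike.congr_fun H z
  refine h0k1_ext fun F x => ?_
  haveI : Finite F.1 := F.2
  rw [AddMonoidHom.comp_apply, AddMonoidHom.comp_apply, map0_cl R φ F x this,
    assembly10_gsym0, assembly10_cl, map_kq1, K1.map_map, ← MonoidAlgebra.mapDomainRingHom_comp]

/-- **Every class comes from the subgroups which contain a finite set.** -/
theorem exists_lift0 (z : H0K1 R G) :
    ∃ S : Finset G, ∀ G' : Subgroup G, (∀ s ∈ S, s ∈ G') →
      ∃ y : H0K1 R G', map0 R G'.subtype y = z := by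
  classical
  induction z using h0k1_induction with
  | h0 => exact ⟨∅, fun G' _ => ⟨0, map_zero _⟩⟩
  | h1 F x =>
    haveI hfin : Finite F.1 := F.2
    haveI : Fintype F.1 := Fintype.ofFinite _
    refine ⟨Finset.univ.image fun a : F.1 => (a : G), ?_⟩
    intro G' hG'
    have hF : ∀ a : F.1, (a : G) ∈ G' := fun a =>
      hG' _ (Finset.mem_image_of_mem _ (Finset.mem_univ a))
    let f1 : F.1 →* G' := F.1.subtype.codRestrict G' hF
    refine ⟨gsym0 f1 x, ?_⟩
    rw [map0_gsym0 R G'.subtype f1, cl_eq_gsym0 F x hfin]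
    rfl
  | h2 a b ha hb =>
    obtain ⟨S1, h1⟩ := ha
    obtain ⟨S2, h2⟩ := hb
    refine ⟨S1 ∪ S2, fun G' hG' => ?_⟩
    obtain ⟨y1, e1⟩ := h1 G' fun s hs => hG' s (Finset.mem_union_left _ hs)
    obtain ⟨y2, e2⟩ := h2 G' fun s hs => hG' s (Finset.mem_union_right _ hs)
    exact ⟨y1 + y2, by rw [map_add, e1, e2]⟩
  | h3 a ha =>
    obtain ⟨S, hS⟩ := ha
    refine ⟨S, fun G' hG' => ?_⟩
    obtain ⟨y, hy⟩ := hS G' hG'
    exact ⟨-y, by rw [map_neg, hy]⟩

end

/-- **Rational injectivity is a local property in the group.** -/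
theorem ratInj00_directed {R : Type u} [Ring R] {G : Type v} [Group G]
    (P : Subgroup G → Prop)
    (hP : ∀ S : Finset G, ∃ G' : Subgroup G, P G' ∧ ∀ g ∈ S, g ∈ G')
    (h : ∀ G' : Subgroup G, P G' → RatInj (assembly00 R G')) : RatInj (assembly00 R G) := by
  classical
  rw [ratInj_iff]
  intro z M hM hz
  obtain ⟨S0, hS0⟩ := HnK0.exists_lift R 0 z.1
  obtain ⟨S1, hS1⟩ := exists_lift0 R z.2
  set S : Finset G := S0 ∪ S1 with hS
  obtain ⟨z1, hz1⟩ := hS0 (Subgroup.closure (S : Set G)) fun s hs =>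
    Subgroup.subset_closure (Finset.mem_union_left _ hs)
  obtain ⟨z2, hz2⟩ := hS1 (Subgroup.closure (S : Set G)) fun s hs =>
    Subgroup.subset_closure (Finset.mem_union_right _ hs)
  have key : ∀ (G₁ : Subgroup G) (w : HnK0 R (Subgroup.closure (S : Set G)) 0 ×
      H0K1 R (Subgroup.closure (S : Set G))) (φ : Subgroup.closure (S : Set G) →* G₁),
      assembly00 R G₁ (HnK0.map R 0 φ w.1, map0 R φ w.2) =
        KQ.map (MonoidAlgebra.mapDomainRingHom R φ)
          (assembly00 R (Subgroup.closure (S : Set G)) w) := by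
    intro G₁ w φ
    change assemblyN R 0 G₁ (HnK0.map R 0 φ w.1) + assembly10 R G₁ (map0 R φ w.2) =
      KQ.map (MonoidAlgebra.mapDomainRingHom R φ) (assemblyN R 0 _ w.1 + assembly10 R _ w.2)
    rw [map_add, assemblyN_map, assembly10_map]
  have h1 : KQ.map (MonoidAlgebra.mapDomainRingHom R (Subgroup.closure (S : Set G)).subtype)
      (M • assembly00 R (Subgroup.closure (S : Set G)) (z1, z2)) = 0 := by
    have h0 : assembly00 R (Subgroup.closure (S : Set G)) (z1, z2) =
      assemblyN R 0 _ z1 + assembly10 R _ z2 := rfl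
    rw [map_zsmul, h0, map_add, ← assemblyN_map, ← assembly10_map, hz1, hz2]
    exact hz
  obtain ⟨T, hT⟩ := KQ.exists_zero.{max u v, max u v, max u v} _ _ h1
  obtain ⟨G', hPG, hG'⟩ := hP (S ∪ T.biUnion fun a => a.coeff.support)
  have hle : Subgroup.closure (S : Set G) ≤ G' := by
    rw [Subgroup.closure_le]
    intro s hs
    exact hG' s (Finset.mem_union_left _ hs)
  have hcomp : G'.subtype.comp (Subgroup.inclusion hle) =
      (Subgroup.closure (S : Set G)).subtype := rfl
  have h2 : KQ.map (MonoidAlgebra.mapDomainRingHom R (Subgroup.inclusion hle))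
      (M • assembly00 R (Subgroup.closure (S : Set G)) (z1, z2)) = 0 := by
    refine hT (MonoidAlgebra.mapDomainRingHom R G'.subtype) _
      (mapDomainRingHom_injective R _ G'.subtype_injective) ?_ ?_
    · rw [← hcomp]
      exact (MonoidAlgebra.mapDomainRingHom_comp _ _).symm
    · intro a ha
      exact mem_range_mapDomainRingHom R G' a fun g hg =>
        hG' g (Finset.mem_union_right _ (Finset.mem_biUnion.2 ⟨a, ha, hg⟩))
  rw [map_zsmul, ← key] at h2
  obtain ⟨m, hm, h3⟩ := ratInj_iff.1 (h G' hPG) _ M hM h2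
  refine ⟨m, hm, ?_⟩
  have h4 : m • HnK0.map R 0 (Subgroup.inclusion hle) z1 = 0 := congrArg Prod.fst h3
  have h5 : m • map0 R (Subgroup.inclusion hle) z2 = 0 := congrArg Prod.snd h3
  have h6 := congrArg (HnK0.map R 0 G'.subtype) h4
  have h7 := congrArg (map0 R G'.subtype) h5
  rw [map_zsmul, HnK0.map_map, map_zero, hcomp, hz1] at h6
  rw [map_zsmul, map0_map0, map_zero, hcomp, hz2] at h7
  exact Prod.ext h6 h7

section

variable {R : Type u} [Ring R] {G : Type v} [Group G]

private theorem mem_range_mapR {R' : Type u'} [Ring R'] (f : R' →+* R) (M : Type*) [Monoid M]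
    (a : MonoidAlgebra R M) (h : ∀ m, a.coeff m ∈ Set.range f) :
    a ∈ Set.range (MonoidAlgebra.mapRingHom M f) := by
  classical
  choose c hc using h
  refine ⟨∑ m ∈ a.coeff.support, MonoidAlgebra.single m (c m), ?_⟩
  rw [map_sum]
  simp only [MonoidAlgebra.mapRingHom_single, hc]
  exact MonoidAlgebra.sum_coeff_single a

open Classical in
/-- the coefficients of a finite set -/
private noncomputable def cfs (M : Type*) [Monoid M] (S : Finset (MonoidAlgebra R M)) : Finset R :=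
  S.biUnion fun a => a.coeff.support.image a.coeff

private theorem mem_cfs {R' : Type u'} [Ring R'] (f : R' →+* R) (M : Type*) [Monoid M]
    (S : Finset (MonoidAlgebra R M)) (h : ∀ s ∈ cfs M S, s ∈ Set.range f) (a : MonoidAlgebra R M)
    (ha : a ∈ S) : a ∈ Set.range (MonoidAlgebra.mapRingHom M f) := by
  classical
  apply mem_range_mapR f M a
  intro m
  by_cases hm : a.coeff m = 0
  · rw [hm]
    exact ⟨0, map_zero f⟩
  · refine h _ (Finset.mem_biUnion.2 ⟨a, ha, Finset.mem_image.2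
      ⟨m, Finsupp.mem_support_iff.2 hm, rfl⟩⟩)

/-- **Every class comes from the rings which contain a finite set.** -/
theorem H0K1_exists_lift (z : H0K1 R G) : ∃ S : Finset R, ∀ {R' : Type u'} [Ring R']
    (f : R' →+* R), Function.Injective f → (∀ s ∈ S, s ∈ Set.range f) →
      ∃ y : H0K1 R' G, src0 (NatK1.ofHom G f) y = z := by
  classical
  induction z using h0k1_induction with
  | h0 =>
    refine ⟨∅, ?_⟩
    intro R' _ f hf h
    exact ⟨0, map_zero _⟩
  | h1 F x =>
    obtain ⟨S, hS⟩ := Pool.Agent.H16.FU.K1_exists_lift.{max u v, max u' v} x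
    refine ⟨cfs F.1 S, ?_⟩
    intro R' _ f hf h
    obtain ⟨y, hy⟩ := hS (MonoidAlgebra.mapRingHom F.1 f) (mapRingHom_injective' hf F.1)
      (mem_cfs f F.1 S h)
    exact ⟨cl F y, by rw [src0_cl, NatK1.ofHom_app, hy]⟩
  | h2 a b ha hb =>
    obtain ⟨S1, h1⟩ := ha
    obtain ⟨S2, h2⟩ := hb
    refine ⟨S1 ∪ S2, ?_⟩
    intro A' _ f hf h
    obtain ⟨y1, e1⟩ := h1 f hf fun s hs => h s (Finset.mem_union_left _ hs)
    obtain ⟨y2, e2⟩ := h2 f hf fun s hs => h s (Finset.mem_union_right _ hs)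
    exact ⟨y1 + y2, by rw [map_add, e1, e2]⟩
  | h3 a ha =>
    obtain ⟨S, hS⟩ := ha
    refine ⟨S, ?_⟩
    intro A' _ f hf h
    obtain ⟨y, hy⟩ := hS f hf h
    exact ⟨-y, by rw [map_neg, hy]⟩

private theorem exists_fac {A : Type*} [Ring A] {R' : Type*} [Ring R'] (f : R' →+* R)
    (hf : Function.Injective f) (ι : A →+* R) (h : ∀ a, ι a ∈ Set.range f) :
    ∃ φ : A →+* R', f.comp φ = ι := by
  choose c hc using h
  refine ⟨⟨⟨⟨c, hf ?_⟩, fun a b => hf ?_⟩, hf ?_, fun a b => hf ?_⟩, RingHom.ext hc⟩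
  · rw [hc, map_one, map_one]
  · rw [hc, map_mul, map_mul, hc, hc]
  · change f (c 0) = f 0
    rw [hc, map_zero, map_zero]
  · change f (c (a + b)) = f (c a + c b)
    rw [hc, map_add, map_add, hc, hc]

theorem src0_comp {R' : Type*} [Ring R'] {R'' : Type*} [Ring R''] (θ : R →+* R')
    (θ' : R' →+* R'') (w : H0K1 R G) :
    src0 (NatK1.ofHom G θ') (src0 (NatK1.ofHom G θ) w) = src0 (NatK1.ofHom G (θ'.comp θ)) w := by
  have h : (src0 (NatK1.ofHom G θ')).comp (src0 (NatK1.ofHom G θ)) =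
      src0 (NatK1.ofHom G (θ'.comp θ)) := by
    apply h0k1_ext
    intro F x
    rw [AddMonoidHom.comp_apply, src0_cl, src0_cl, src0_cl, NatK1.ofHom_app, NatK1.ofHom_app,
      NatK1.ofHom_app, K1.map_map, ← MonoidAlgebra.mapRingHom_comp]
  exact DFunLike.congr_fun h w

private theorem asm00_map {R' : Type u'} [Ring R'] (f : R' →+* R) (y : HnK0 R' G 0)
    (y' : H0K1 R' G) :
    assembly00 R G ((NatK0.ofHom G f).src 0 y, src0 (NatK1.ofHom G f) y') =
      KQ.map (MonoidAlgebra.mapRingHom G f) (assembly00 R' G (y, y')) := by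
  have h1 : (assembly10 R G).comp (src0 (NatK1.ofHom G f)) =
      (KQ.map (MonoidAlgebra.mapRingHom G f)).comp (assembly10 R' G) := by
    apply h0k1_ext
    intro F x
    rw [AddMonoidHom.comp_apply, AddMonoidHom.comp_apply, src0_cl, ofHom_asm0]
  have h2 : assembly10 R G (src0 (NatK1.ofHom G f) y') =
      KQ.map (MonoidAlgebra.mapRingHom G f) (assembly10 R' G y') := DFunLike.congr_fun h1 y'
  unfold assembly00
  rw [AddMonoidHom.coprod_apply, AddMonoidHom.coprod_apply, map_add, assemblyN_ofHom, h2]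

/-- **Directed unions of coefficient rings.** -/
theorem ratInj00_of_local (h : ∀ S : Finset R, ∃ (R' : Type u) (_ : Ring R') (f : R' →+* R),
      Function.Injective f ∧ (∀ s ∈ S, s ∈ Set.range f) ∧ RatInj (assembly00 R' G)) :
    RatInj (assembly00 R G) := by
  classical
  rw [Pool.Agent.H71.FQ.ratInj_iff]
  rintro ⟨z0, z1⟩ M hM hz
  obtain ⟨S0, hS0⟩ := Pool.Agent.H16.FU.HnK0_exists_lift.{u, u, v} z0
  obtain ⟨S1, hS1⟩ := H0K1_exists_lift.{u, u, v} z1
  set A : Subring R := Subring.closure ((S0 ∪ S1 : Finset R) : Set R) with hA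
  obtain ⟨y0, hy0⟩ := hS0 A.subtype Subtype.val_injective fun s hs =>
    ⟨⟨s, Subring.subset_closure (Finset.mem_coe.2 (Finset.mem_union_left _ hs))⟩, rfl⟩
  obtain ⟨y1, hy1⟩ := hS1 A.subtype Subtype.val_injective fun s hs =>
    ⟨⟨s, Subring.subset_closure (Finset.mem_coe.2 (Finset.mem_union_right _ hs))⟩, rfl⟩
  have h1 : KQ.map (MonoidAlgebra.mapRingHom G A.subtype) (M • assembly00 A G (y0, y1)) = 0 := by
    rw [map_zsmul, ← asm00_map, hy0, hy1, hz]
  obtain ⟨T, hT⟩ := KQ.exists_zero.{max u v, max u v, max u v} _ _ h1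
  obtain ⟨R', _, f, hf, hS, hR'⟩ := h ((S0 ∪ S1) ∪ cfs G T)
  have hle : ∀ a : A, A.subtype a ∈ Set.range f := by
    intro a
    have h2 : A ≤ f.range := by
      rw [hA, Subring.closure_le]
      intro s hs
      exact hS s (Finset.mem_union_left _ (Finset.mem_coe.1 hs))
    exact h2 a.2
  obtain ⟨φ, hφ⟩ := exists_fac f hf A.subtype hle
  have h2 : KQ.map (MonoidAlgebra.mapRingHom G φ) (M • assembly00 A G (y0, y1)) = 0 := by
    refine hT (MonoidAlgebra.mapRingHom G f) _ (mapRingHom_injective' hf G) ?_ ?_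
    · rw [← hφ, MonoidAlgebra.mapRingHom_comp]
    · exact mem_cfs f G T fun s hs => hS s (Finset.mem_union_right _ hs)
  rw [map_zsmul, ← asm00_map] at h2
  obtain ⟨m, hm, h3⟩ := (Pool.Agent.H71.FQ.ratInj_iff.1 hR') _ M hM h2
  refine ⟨m, hm, ?_⟩
  have h4 := congrArg Prod.fst h3
  have h5 := congrArg Prod.snd h3
  change m • (NatK0.ofHom G φ).src 0 y0 = 0 at h4
  change m • src0 (NatK1.ofHom G φ) y1 = 0 at h5
  have h6 := congrArg ((NatK0.ofHom G f).src 0) h4
  have h7 := congrArg (src0 (NatK1.ofHom G f)) h5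
  rw [map_zsmul, src_comp, map_zero, hφ, hy0] at h6
  rw [map_zsmul, src0_comp, map_zero, hφ, hy1] at h7
  exact Prod.ext h6 h7

end

end Pool.Agent.H71.FU0
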